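import Pool.Agent.H.MP_16f3b0_al.A

set_option autoImplicit false
open Pool.Agent.H.MP_16f3b0_al

namespace Pool.Agent.Results.MP_16f3b0_al.CharTwo

theorem result : ∃ (A : Type) (_ : NonUnitalNonAssocRing A), (∀ x y : A, x * y * y = x * (y * y)) ∧
    (∃ a b : A, NonUnitalSubring.closure {a, b} = ⊤) ∧
    ∀ (n : ℕ) (I : ℕ → TwoSidedIdeal A), I 0 = ⊥ → I n = ⊤ →
      ∃ k < n, ∃ x ∈ I (k + 1), ∃ y ∈ I (k + 1), ∃ z ∈ I (k + 1), x * y * z - x * (y * z) ∉ I k := by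
  refine ⟨R, inferInstance, by decide, ⟨mk 0 0 1, 0, eq_top_iff.mpr fun x _ => ?_⟩, fun n I h0 h1 => ?_⟩
  · have h : mk 0 0 1 ∈ NonUnitalSubring.closure ({mk 0 0 1, 0} : Set R) := NonUnitalSubring.subset_closure (.inl rfl)
    have h' : ∀ (c : Fin 2) (y : R), y ∈ NonUnitalSubring.closure ({mk 0 0 1, 0} : Set R) →
      c.1 • y ∈ NonUnitalSubring.closure ({mk 0 0 1, 0} : Set R) := fun c y hy => nsmul_mem hy _
    obtain ⟨a, b, c, rfl⟩ := (by decide : ∀ x : R, ∃ a b c : Fin 2,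
      x = a.1 • mk 0 0 1 + b.1 • (mk 0 0 1 * mk 0 0 1) + c.1 • (mk 0 0 1 * mk 0 0 1 * mk 0 0 1)) x
    exact add_mem (add_mem (h' _ _ h) (h' _ _ (mul_mem h h))) (h' _ _ (mul_mem (mul_mem h h) h))
  · have h2 : ∀ J : TwoSidedIdeal R, J ≠ ⊥ → ∀ x, x ∈ J := fun J h x => by
      obtain ⟨y, hy, h0⟩ : ∃ y ∈ J, y ≠ 0 := by
        by_contra! h'
        exact h (eq_bot_iff.mpr fun y hy => (TwoSidedIdeal.mem_bot _).mpr (h' y hy))
      obtain ⟨a, b, c, d, e, rfl⟩ := (by decide +kernel : ∀ x y : R, y ≠ 0 → ∃ a b c d e,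
        x = a * (y * b) + c * (d * (y * e))) x y h0
      exact J.add_mem (J.mul_mem_left _ _ (J.mul_mem_right _ _ hy))
        (J.mul_mem_left _ _ (J.mul_mem_left _ _ (J.mul_mem_right _ _ hy)))
    obtain ⟨k, hk, h3, h4⟩ : ∃ k < n, I k = ⊥ ∧ I (k + 1) ≠ ⊥ := by
      by_contra! h
      have : ∀ k ≤ n, I k = ⊥ := fun k => k.rec (fun _ => h0) fun k ih hk => h k hk (ih (Nat.le_of_succ_le hk))
      have h5 : mk 0 0 1 ∈ I n := h1 ▸ TwoSidedIdeal.mem_top _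
      rw [this n le_rfl, TwoSidedIdeal.mem_bot] at h5
      exact absurd h5 (by decide)
    refine ⟨k, hk, mk 0 0 1, h2 _ h4 _, mk 0 0 1, h2 _ h4 _, mk 1 0 0, h2 _ h4 _, ?_⟩
    rw [h3, TwoSidedIdeal.mem_bot]
    decide

end Pool.Agent.Results.MP_16f3b0_al.CharTwo
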